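import Pool.Agent.Work.MP_121ed1_lc.Defs

-- merged part: Pool.Agent.Work.MP_121ed1_lc.Flow
section
/-!
Existence of a signed real flow supported on unwiretapped edges with the property that a
non-source vertex with zero inflow on every edge has zero outflow on every edge.
-/

namespace Pool.Agent.Work.MP_121ed1_lc

open Finset

set_option linter.unusedSectionVars false

variable {V : Type} [Fintype V] [DecidableEq V]

/-- Net outflow at a vertex. -/
noncomputable def dv (φ : V × V → ℝ) (v : V) : ℝ := ∑ w, φ (v, w) - ∑ u, φ (u, v)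

lemma dv_add (φ ψ : V × V → ℝ) (v : V) : dv (φ + ψ) v = dv φ v + dv ψ v := by
  simp only [dv, Pi.add_apply, sum_add_distrib]; ring

lemma dv_smul (t : ℝ) (φ : V × V → ℝ) (v : V) : dv (t • φ) v = t * dv φ v := by
  simp only [dv, Pi.smul_apply, smul_eq_mul, ← mul_sum]; ring

lemma dv_neg (φ : V × V → ℝ) (v : V) : dv (-φ) v = - dv φ v := by
  simp only [dv, Pi.neg_apply, sum_neg_distrib]; ring

lemma dv_zero (v : V) : dv (0 : V × V → ℝ) v = 0 := by
  simp [dv]

lemma dv_sum {ι : Type} (s : Finset ι) (f : ι → V × V → ℝ) (v : V) :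
    dv (∑ i ∈ s, f i) v = ∑ i ∈ s, dv (f i) v := by
  classical
  induction s using Finset.induction_on with
  | empty => simp [dv_zero]
  | insert a s ha ih => rw [sum_insert ha, sum_insert ha, dv_add, ih]

lemma dv_single (a b v : V) :
    dv (Pi.single (a, b) (1 : ℝ)) v = (if v = a then 1 else 0) - (if v = b then 1 else 0) := by
  simp only [dv, Pi.single_apply, Prod.mk.injEq]
  congr 1
  · by_cases h : v = a <;> simp [h]
  · by_cases h : v = b <;> simp [h]

/-- An undirected path carries a unit flow. -/
lemma exists_path_flow (R : V → V → Prop) {a b : V} (h : Relation.EqvGen R a b) :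
    ∃ g : V × V → ℝ, (∀ e, g e ≠ 0 → R e.1 e.2) ∧
      ∀ v, dv g v = (if v = a then 1 else 0) - (if v = b then 1 else 0) := by
  induction h with
  | rel x y hxy =>
    refine ⟨Pi.single (x, y) 1, ?_, fun v => dv_single x y v⟩
    intro e he
    by_cases hexy : e = (x, y)
    · subst hexy; exact hxy
    · exact absurd (Pi.single_eq_of_ne hexy _) he
  | refl x => exact ⟨0, by simp, fun v => by simp [dv_zero]⟩
  | symm x y _ ih =>
    obtain ⟨g, hg, hd⟩ := ih
    refine ⟨-g, fun e he => hg e (by simpa using he), fun v => ?_⟩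
    rw [dv_neg, hd]; ring
  | trans x y z _ _ ih1 ih2 =>
    obtain ⟨g, hg, hd⟩ := ih1
    obtain ⟨g', hg', hd'⟩ := ih2
    refine ⟨g + g', fun e he => ?_, fun v => ?_⟩
    · by_cases h1 : g e = 0
      · apply hg'
        intro h2
        apply he
        simp [h1, h2]
      · exact hg e h1
    · rw [dv_add, hd, hd']; ring

/-- The net outflow of a vertex set crossed by no edge of the support is zero. -/
lemma sum_dv_eq_zero (φ : V × V → ℝ) (C : Finset V)
    (hC : ∀ x y, φ (x, y) ≠ 0 → (x ∈ C ↔ y ∈ C)) : ∑ x ∈ C, dv φ x = 0 := by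
  have h1 : ∑ x ∈ C, ∑ w, φ (x, w) = ∑ x, ∑ w, if x ∈ C then φ (x, w) else 0 := by
    rw [← sum_filter_add_sum_filter_not univ (fun x => x ∈ C)]
    have e1 : univ.filter (fun x => x ∈ C) = C := by ext; simp
    rw [e1]
    have e2 : ∑ x ∈ univ.filter (fun x => ¬ x ∈ C), ∑ w, (if x ∈ C then φ (x, w) else 0) = 0 := by
      apply sum_eq_zero
      intro x hx
      have : x ∉ C := by simpa using hx
      simp [this]
    rw [e2, add_zero]
    apply sum_congr rfl
    intro x hx
    simp [hx]
  have h2 : ∑ x ∈ C, ∑ u, φ (u, x) = ∑ u, ∑ x, if x ∈ C then φ (u, x) else 0 := by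
    rw [sum_comm]
    apply sum_congr rfl
    intro u _
    rw [← sum_filter]
    congr 1
    ext; simp
  simp only [dv, sum_sub_distrib]
  rw [h1, h2, sub_eq_zero]
  apply sum_congr rfl
  intro x _
  apply sum_congr rfl
  intro y _
  by_cases h : φ (x, y) = 0
  · simp [h]
  · simp [hC x y h]

/-- `φ` is a flow supported on `A` in which each vertex of `S` emits one unit. -/
def IsFlow (S : Finset V) (d : V) (A : Finset (V × V)) (φ : V × V → ℝ) : Prop :=
  (∀ e, φ e ≠ 0 → e ∈ A) ∧ ∀ v, v ≠ d → dv φ v = if v ∈ S then 1 else 0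

/-- Every tail of an edge of `A` lies in `S` or is the head of an edge of `A`. -/
def Fed (S : Finset V) (A : Finset (V × V)) : Prop :=
  ∀ v w, (v, w) ∈ A → v ∈ S ∨ ∃ u, (u, v) ∈ A

lemma no_source_of_closed {S : Finset V} {d : V} {A : Finset (V × V)} {φ : V × V → ℝ}
    (hφ : IsFlow S d A φ) (C : Finset V) (hd : d ∉ C)
    (hC : ∀ x y, φ (x, y) ≠ 0 → (x ∈ C ↔ y ∈ C)) : ∀ s ∈ S, s ∉ C := by
  have h0 := sum_dv_eq_zero φ C hC
  have h1 : ∑ x ∈ C, dv φ x = ∑ x ∈ C, if x ∈ S then (1 : ℝ) else 0 := by
    apply sum_congr rfl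
    intro x hx
    exact hφ.2 x (fun h => hd (h ▸ hx))
  rw [h1] at h0
  intro s hs hsC
  have := (sum_eq_zero_iff_of_nonneg (fun x _ => by split_ifs <;> norm_num)).1 h0 s hsC
  simp [hs] at this

lemma exists_larger_support {S : Finset V} {d : V} {A : Finset (V × V)} {φ κ : V × V → ℝ}
    (hφ : IsFlow S d A φ) (hκA : ∀ e, κ e ≠ 0 → e ∈ A) (hκ : ∀ v, dv κ v = 0)
    {e : V × V} (he : φ e = 0) (hκe : κ e ≠ 0) :
    ∃ ψ, IsFlow S d A ψ ∧
      (univ.filter (fun f => φ f ≠ 0)).card < (univ.filter (fun f => ψ f ≠ 0)).card := by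
  classical
  obtain ⟨t, ht⟩ := Infinite.exists_notMem_finset
    (insert (0 : ℝ) (univ.image (fun f : V × V => - φ f / κ f)))
  have ht0 : t ≠ 0 := fun h => ht (by simp [h])
  have ht1 : ∀ f, t ≠ - φ f / κ f := fun f h => ht (by
    rw [mem_insert]; right; exact mem_image.2 ⟨f, mem_univ _, h.symm⟩)
  refine ⟨φ + t • κ, ⟨fun f hf => ?_, fun v hv => ?_⟩, ?_⟩
  · by_cases h1 : φ f = 0
    · apply hκA
      intro h2
      apply hf
      simp [h1, h2]
    · exact hφ.1 f h1
  · rw [dv_add, dv_smul, hκ, hφ.2 v hv]; ring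
  · apply card_lt_card
    rw [ssubset_iff_of_subset]
    · refine ⟨e, ?_, ?_⟩
      · simp [he, ht0, hκe]
      · simp [he]
    · intro f hf
      simp only [mem_filter, mem_univ, true_and] at hf ⊢
      intro h
      simp only [Pi.add_apply, Pi.smul_apply, smul_eq_mul] at h
      by_cases hk : κ f = 0
      · apply hf; simpa [hk] using h
      · apply ht1 f
        field_simp
        linarith

/-- Main combinatorial lemma. -/
lemma exists_good_flow (E : Finset (V × V))
    (hac : ∀ v, ¬ Relation.TransGen (fun a b => (a, b) ∈ E) v v)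
    (S : Finset V) (d : V) (n : ℕ) :
    ∀ A : Finset (V × V), A.card = n → A ⊆ E → Fed S A → (∃ φ, IsFlow S d A φ) →
      ∃ φ, IsFlow S d A φ ∧ ∀ v w, φ (v, w) ≠ 0 → v ∈ S ∨ ∃ u, φ (u, v) ≠ 0 := by
  classical
  induction n using Nat.strong_induction_on with
  | _ n ih =>
  intro A hAn hAE hfed hex
  -- a flow of maximal support
  obtain ⟨φ, hφ, hmax⟩ : ∃ φ, IsFlow S d A φ ∧ ∀ ψ, IsFlow S d A ψ →
      (univ.filter (fun f => ψ f ≠ 0)).card ≤ (univ.filter (fun f => φ f ≠ 0)).card := by
    have hbd : ∀ ψ : V × V → ℝ,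
        (univ.filter (fun f => ψ f ≠ 0)).card ≤ Fintype.card (V × V) := fun ψ =>
      card_le_univ _
    let P : ℕ → Prop := fun k => ∃ φ, IsFlow S d A φ ∧ (univ.filter (fun f => φ f ≠ 0)).card = k
    obtain ⟨φ0, hφ0⟩ := hex
    have hP : P (Nat.findGreatest P (Fintype.card (V × V))) :=
      Nat.findGreatest_spec (hbd φ0) ⟨φ0, hφ0, rfl⟩
    obtain ⟨φ, hφ, hk⟩ := hP
    refine ⟨φ, hφ, fun ψ hψ => ?_⟩
    rw [hk]
    exact Nat.le_findGreatest (hbd ψ) ⟨ψ, hψ, rfl⟩
  by_cases hfull : ∀ e ∈ A, φ e ≠ 0
  · refine ⟨φ, hφ, fun v w hvw => ?_⟩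
    rcases hfed v w (hφ.1 _ hvw) with h | ⟨u, hu⟩
    · exact Or.inl h
    · exact Or.inr ⟨u, hfull _ hu⟩
  push Not at hfull
  obtain ⟨⟨u, v⟩, heA, he0⟩ := hfull
  let R : V → V → Prop := fun a b => (a, b) ∈ A ∧ (a, b) ≠ (u, v)
  let C : Finset V := univ.filter (fun x => Relation.EqvGen R v x)
  have hCmem : ∀ x, x ∈ C ↔ Relation.EqvGen R v x := fun x => by simp [C]
  have hvC : v ∈ C := (hCmem v).2 (Relation.EqvGen.refl v)
  have hRC : ∀ x y, R x y → (x ∈ C ↔ y ∈ C) := by
    intro x y hxy
    rw [hCmem, hCmem]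
    exact ⟨fun h => h.trans _ _ _ (Relation.EqvGen.rel _ _ hxy),
      fun h => h.trans _ _ _ (Relation.EqvGen.rel _ _ hxy).symm⟩
  have hφC : ∀ x y, φ (x, y) ≠ 0 → (x ∈ C ↔ y ∈ C) := by
    intro x y hxy
    apply hRC
    refine ⟨hφ.1 _ hxy, fun h => hxy ?_⟩
    rw [h]; exact he0
  have huC : u ∉ C := by
    intro hu
    obtain ⟨g, hg, hdg⟩ := exists_path_flow R ((hCmem u).1 hu)
    have hge : g (u, v) = 0 := by
      by_contra h
      exact (hg _ h).2 rfl
    obtain ⟨ψ, hψ, hlt⟩ := exists_larger_support (κ := g + Pi.single (u, v) 1) (e := (u, v)) hφ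
      (by
        intro e he
        by_cases h1 : e = (u, v)
        · rw [h1]; exact heA
        · have : g e ≠ 0 := by simpa [Pi.single_eq_of_ne h1] using he
          exact (hg e this).1)
      (by intro x; rw [dv_add, hdg, dv_single]; ring) he0 (by simp [hge])
    exact absurd (hmax ψ hψ) (not_le.2 hlt)
  have hwf : WellFounded (fun a b : V => (a, b) ∈ E) := by
    have : WellFounded (Relation.TransGen (fun a b : V => (a, b) ∈ E)) := by
      have : Std.Irrefl (Relation.TransGen (fun a b : V => (a, b) ∈ E)) := ⟨hac⟩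
      exact Finite.wellFounded_of_trans_of_irrefl _
    exact Subrelation.wf (fun h => Relation.TransGen.single h) this
  have hdC : d ∉ C := by
    intro hd
    have hSC : ∀ s ∈ S, s ∈ C := by
      intro s hs
      have := no_source_of_closed hφ (univ \ C) (by simp [hd])
        (fun x y hxy => by simp [hφC x y hxy]) s hs
      simpa using this
    have key : ∀ x, (x ∈ S ∨ ∃ y, (y, x) ∈ A) →
        ¬ Relation.ReflTransGen (fun a b => (a, b) ∈ E) v x → x ∈ C := by
      intro x
      induction x using hwf.induction with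
      | _ x ihx =>
      intro hx hnr
      rcases hx with hx | ⟨y, hy⟩
      · exact hSC x hx
      · have hyC : y ∈ C := ihx y (hAE hy) (hfed y x hy)
          (fun h => hnr (h.tail (hAE hy)))
        have hne : (y, x) ≠ (u, v) := by
          intro h
          apply hnr
          rw [(Prod.mk.inj h).2]
        exact (hRC y x ⟨hy, hne⟩).1 hyC
    apply huC
    apply key u (hfed u v heA)
    intro h
    exact hac v (Relation.TransGen.tail' h (hAE heA))
  have hSC : ∀ s ∈ S, s ∉ C := no_source_of_closed hφ C hdC hφC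
  let A' : Finset (V × V) := A.filter (fun e => e.1 ∉ C ∧ e.2 ∉ C)
  have hA'A : A' ⊆ A := filter_subset _ _
  have hlt : A'.card < n := by
    rw [← hAn]
    apply card_lt_card
    rw [ssubset_iff_of_subset hA'A]
    exact ⟨(u, v), heA, by simp [A', hvC]⟩
  have hfed' : Fed S A' := by
    intro x y hxy
    have hxy' := mem_filter.1 hxy
    rcases hfed x y hxy'.1 with h | ⟨z, hz⟩
    · exact Or.inl h
    · right
      refine ⟨z, mem_filter.2 ⟨hz, ?_, hxy'.2.1⟩⟩
      intro hzC
      have hne : (z, x) ≠ (u, v) := by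
        intro h
        apply hxy'.2.1
        show x ∈ C
        rw [(Prod.mk.inj h).2]; exact hvC
      exact hxy'.2.1 ((hRC z x ⟨hz, hne⟩).1 hzC)
  have hflow' : IsFlow S d A' (fun e => if e.1 ∈ C then 0 else φ e) := by
    refine ⟨fun e he => ?_, fun x hx => ?_⟩
    · by_cases h1 : e.1 ∈ C
      · simp [h1] at he
      · have h2 : φ e ≠ 0 := by simpa [h1] using he
        exact mem_filter.2 ⟨hφ.1 e h2, h1, fun h => h1 ((hφC e.1 e.2 h2).2 h)⟩
    · by_cases hxC : x ∈ C
      · have hxS : x ∉ S := fun h => hSC x h hxC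
        simp only [dv, hxC, if_true, hxS, if_false, sum_const_zero, zero_sub, neg_eq_zero]
        apply sum_eq_zero
        intro y _
        by_cases hy : y ∈ C
        · simp [hy]
        · simp only [hy, if_false]
          by_contra h
          exact hy ((hφC y x h).2 hxC)
      · rw [← hφ.2 x hx]
        simp only [dv, hxC, if_false]
        congr 1
        apply sum_congr rfl
        intro y _
        by_cases hy : y ∈ C
        · simp only [hy, if_true]
          by_contra h
          exact hxC ((hφC y x (fun h' => h h'.symm)).1 hy)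
        · simp [hy]
  obtain ⟨ψ, hψ, hgood⟩ := ih _ hlt A' rfl (hA'A.trans hAE) hfed' ⟨_, hflow'⟩
  exact ⟨ψ, ⟨fun e he => hA'A (hψ.1 e he), hψ.2⟩, hgood⟩

/-- Under condition (C) there is a good flow supported on `E \ W`. -/
lemma exists_good_flow_of_condC (E W : Finset (V × V)) (d : V)
    (hac : ∀ v, ¬ Relation.TransGen (fun a b => (a, b) ∈ E) v v)
    (hC : CondC E W d) :
    ∃ a : V × V → ℝ, (∀ e, a e ≠ 0 → e ∈ E ∧ e ∉ W) ∧
      (∀ v, v ≠ d → dv a v = if v ∈ sources E then 1 else 0) ∧
      ∀ v w, a (v, w) ≠ 0 → v ∈ sources E ∨ ∃ u, a (u, v) ≠ 0 := by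
  classical
  let H : Finset (V × V) := E.filter (fun e => e ∉ scl E W)
  have hHE : H ⊆ E := filter_subset _ _
  have hfed : Fed (sources E) H := by
    intro v w hvw
    obtain ⟨hE, hscl⟩ := mem_filter.1 hvw
    simp only [scl, Set.mem_ofPred_eq, not_or, not_and, not_not] at hscl
    obtain ⟨s, hs, hpath⟩ := hscl.2 hE
    rcases hpath.cases_tail with h | ⟨u, hu, huv⟩
    · left; rw [h]; exact hs
    · right
      refine ⟨u, mem_filter.2 ⟨huv.1, ?_⟩⟩
      simp only [scl, Set.mem_ofPred_eq, not_or, not_and, not_not]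
      exact ⟨huv.2, fun _ => ⟨s, hs, hu⟩⟩
  have hex : ∃ φ, IsFlow (sources E) d H φ := by
    choose g hg hdg using fun s : sources E => exists_path_flow _ (hC s.1 s.2)
    refine ⟨∑ s, g s, fun e he => ?_, fun v hv => ?_⟩
    · rw [Finset.sum_apply] at he
      obtain ⟨s, _, hs⟩ := exists_ne_zero_of_sum_ne_zero he
      exact mem_filter.2 (hg s e hs)
    · rw [dv_sum]
      simp only [hdg, hv, if_false, sub_zero]
      by_cases hvS : v ∈ sources E
      · rw [if_pos hvS, sum_eq_single (⟨v, hvS⟩ : sources E)]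
        · simp
        · intro b _ hb
          rw [if_neg]
          intro h
          exact hb (Subtype.ext h.symm)
        · simp
      · rw [if_neg hvS]
        apply sum_eq_zero
        intro b _
        rw [if_neg]
        intro h
        exact hvS (h ▸ b.2)
  obtain ⟨a, ha, hgood⟩ := exists_good_flow E hac (sources E) d _ H rfl hHE hfed hex
  refine ⟨a, fun e he => ?_, ha.2, hgood⟩
  obtain ⟨hE, hscl⟩ := mem_filter.1 (ha.1 e he)
  refine ⟨hE, fun hW => hscl ?_⟩
  exact Or.inl hW

end Pool.Agent.Work.MP_121ed1_lc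
end

-- merged part: Pool.Agent.Work.MP_121ed1_lc.Code
section
/-!
From a good flow to a scalar linear code, and the Gaussian independence.
-/

namespace Pool.Agent.Work.MP_121ed1_lc

open Finset MeasureTheory ProbabilityTheory

set_option linter.unusedSectionVars false

variable {V : Type} [Fintype V] [DecidableEq V]

lemma wf_of_acyclic (E : Finset (V × V))
    (hac : ∀ v, ¬ Relation.TransGen (fun a b => (a, b) ∈ E) v v) :
    WellFounded (fun a b : V => (a, b) ∈ E) := by
  have : WellFounded (Relation.TransGen (fun a b : V => (a, b) ∈ E)) := by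
    have : Std.Irrefl (Relation.TransGen (fun a b : V => (a, b) ∈ E)) := ⟨hac⟩
    exact Finite.wellFounded_of_trans_of_irrefl _
  exact Subrelation.wf (fun h => Relation.TransGen.single h) this

/-- Global coding coefficients exist for any local coefficients. -/
lemma exists_coeff (E : Finset (V × V))
    (hac : ∀ v, ¬ Relation.TransGen (fun a b => (a, b) ∈ E) v v)
    (α : V → V → V → ℝ) (β : V → V → ℝ) :
    ∃ c : V → V → V → ℝ, ∀ v w s, c v w s =
      ∑ u with (u, v) ∈ E, α u v w * c u v s + if v = s then β v w else 0 := by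
  have hwf := wf_of_acyclic E hac
  let F : (v : V) → ((u : V) → (u, v) ∈ E → V → V → ℝ) → V → V → ℝ :=
    fun v r w s => (∑ u, if h : (u, v) ∈ E then α u v w * r u h v s else 0) +
      if v = s then β v w else 0
  refine ⟨hwf.fix F, fun v w s => ?_⟩
  rw [hwf.fix_eq F v]
  simp only [F]
  congr 1
  rw [sum_filter]
  apply sum_congr rfl
  intro u _
  by_cases h : (u, v) ∈ E <;> simp [h]

/-- The deterministic part: a scalar linear code computing the sum in which the coefficients of
each wiretapped signal add up to zero. -/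
lemma exists_code (E : Finset (V × V)) (d : V) (hN : IsNetwork E d) (hE : E.Nonempty)
    (W : Finset (V × V)) (hW : W ⊆ E) (hC : CondC E W d) :
    ∃ (α : V → V → V → ℝ) (β : V → V → ℝ) (c : V × V → sources E → ℝ),
      (∀ (x : sources E → ℝ) v w, (v, w) ∈ E → ∑ s, c (v, w) s * x s =
        ∑ u with (u, v) ∈ E, α u v w * ∑ s, c (u, v) s * x s +
          if h : v ∈ sources E then β v w * x ⟨v, h⟩ else 0) ∧
      (∀ x : sources E → ℝ, ∑ u with (u, d) ∈ E, 1 * ∑ s, c (u, d) s * x s = ∑ s, x s) ∧
      ∀ e ∈ W, ∑ s, c e s = 0 := by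
  classical
  have hwf := wf_of_acyclic E hN.acyclic
  have hsrc : ∀ v, v ∈ sources E ↔ ∀ u, (u, v) ∉ E := fun v => by simp [sources]
  have hdout : ∀ w, (d, w) ∉ E := (hN.uniqueSink d).2 rfl
  -- the destination is not a source
  have hd : d ∉ sources E := by
    intro hd
    have hd' := (hsrc d).1 hd
    have key : ∀ x y, Relation.EqvGen (fun a b => (a, b) ∈ E) x y → (x = d ↔ y = d) := by
      intro x y h
      induction h with
      | rel x y hxy =>
        constructor
        · intro h; subst h; exact absurd hxy (hdout y)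
        · intro h; subst h; exact absurd hxy (hd' x)
      | refl x => rfl
      | symm x y _ ih => exact ih.symm
      | trans x y z _ _ ih1 ih2 => exact ih1.trans ih2
    obtain ⟨⟨x, y⟩, hxy⟩ := hE
    have : x = d := (key d x (hN.weaklyConnected d x)).1 rfl
    exact hdout y (this ▸ hxy)
  obtain ⟨a, haE, hdiv, hgood⟩ := exists_good_flow_of_condC E W d hN.acyclic hC
  have ha0 : ∀ e, e ∉ E → a e = 0 := fun e he => by
    by_contra h; exact he (haE e h).1
  let od : V → ℝ := fun v => ((univ.filter (fun w => (v, w) ∈ E)).card : ℝ)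
  have hod : ∀ v, v ≠ d → od v ≠ 0 := by
    intro v hv
    have : ∃ w, (v, w) ∈ E := by
      by_contra h
      push Not at h
      exact hv ((hN.uniqueSink v).1 h)
    obtain ⟨w, hw⟩ := this
    have : 0 < (univ.filter (fun w => (v, w) ∈ E)).card :=
      card_pos.2 ⟨w, by simp [hw]⟩
    simp only [od]
    exact_mod_cast this.ne'
  let cin : V → ℝ := fun v => ∑ u with (u, v) ∈ E, a (u, v)
  let nin : V → ℝ := fun v => ∑ u with (u, v) ∈ E, a (u, v) ^ 2
  have hcin : ∀ v, cin v = ∑ u, a (u, v) := by
    intro v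
    simp only [cin]
    rw [sum_filter]
    apply sum_congr rfl
    intro u _
    by_cases h : (u, v) ∈ E <;> simp [h, ha0]
  have hcout : ∀ v, ∑ w with (v, w) ∈ E, a (v, w) = ∑ w, a (v, w) := by
    intro v
    rw [sum_filter]
    apply sum_congr rfl
    intro u _
    by_cases h : (v, u) ∈ E <;> simp [h, ha0]
  let α : V → V → V → ℝ := fun u v w => 1 / od v + a (u, v) * (a (v, w) - cin v / od v) / nin v
  let β : V → V → ℝ := fun v w => a (v, w)
  obtain ⟨c, hc⟩ := exists_coeff E hN.acyclic α β
  -- the recursion for signals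
  have hrec : ∀ (x : sources E → ℝ) v w, ∑ s : sources E, c v w s * x s =
      ∑ u with (u, v) ∈ E, α u v w * ∑ s : sources E, c u v s * x s +
        if h : v ∈ sources E then β v w * x ⟨v, h⟩ else 0 := by
    intro x v w
    have e1 : ∀ s : sources E, c v w s * x s =
        ∑ u with (u, v) ∈ E, α u v w * (c u v s * x s) +
          if v = s then β v w * x s else 0 := by
      intro s
      rw [hc v w s, add_mul, sum_mul]
      congr 1
      · apply sum_congr rfl; intro u _; ring
      · split_ifs <;> simp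
    rw [sum_congr rfl (fun s _ => e1 s), sum_add_distrib, sum_comm]
    congr 1
    · apply sum_congr rfl; intro u _; rw [mul_sum]
    · by_cases hv : v ∈ sources E
      · rw [dif_pos hv, sum_eq_single (⟨v, hv⟩ : sources E)]
        · simp
        · intro b _ hb
          rw [if_neg]
          intro h
          exact hb (Subtype.ext h.symm)
        · simp
      · rw [dif_neg hv]
        apply sum_eq_zero
        intro b _
        rw [if_neg]
        intro h
        exact hv (h ▸ b.2)
  -- coefficient sums equal the flow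
  have hsum : ∀ v w, (v, w) ∈ E → ∑ s : sources E, c v w s = a (v, w) := by
    intro v
    induction v using hwf.induction with
    | _ v ih =>
    intro w hvw
    have h1 := hrec (fun _ => 1) v w
    simp only [mul_one] at h1
    rw [h1]
    have h2 : ∑ u with (u, v) ∈ E, α u v w * ∑ s : sources E, c u v s =
        ∑ u with (u, v) ∈ E, α u v w * a (u, v) := by
      apply sum_congr rfl
      intro u hu
      have hu' : (u, v) ∈ E := by simpa using hu
      rw [ih u hu' v hu']
    rw [h2]
    by_cases hv : v ∈ sources E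
    · rw [dif_pos hv]
      have : univ.filter (fun u => (u, v) ∈ E) = ∅ := by
        ext u; simp [(hsrc v).1 hv u]
      rw [this]; simp [β]
    · rw [dif_neg hv, add_zero]
      have h3 : ∑ u with (u, v) ∈ E, α u v w * a (u, v) =
          cin v / od v + nin v * (a (v, w) - cin v / od v) / nin v := by
        simp only [α, cin, nin]
        rw [sum_div, sum_mul, sum_div, ← sum_add_distrib]
        apply sum_congr rfl
        intro u _
        ring
      rw [h3]
      by_cases hn : nin v = 0
      · have hz : ∀ u, a (u, v) = 0 := by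
          intro u
          by_cases hu : (u, v) ∈ E
          · have := (sum_eq_zero_iff_of_nonneg (fun u _ => sq_nonneg (a (u, v)))).1 hn u
              (by simp [hu])
            exact pow_eq_zero_iff (by norm_num) |>.1 this
          · exact ha0 _ hu
        have hw0 : a (v, w) = 0 := by
          by_contra h
          rcases hgood v w h with h' | ⟨u, hu⟩
          · exact hv h'
          · exact hu (hz u)
        have hc0 : cin v = 0 := by rw [hcin]; simp [hz]
        simp [hn, hw0, hc0]
      · field_simp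
        ring
  -- conservation at each vertex other than the destination
  have hcons : ∀ (x : sources E → ℝ) v, v ≠ d →
      ∑ w with (v, w) ∈ E, ∑ s : sources E, c v w s * x s =
        ∑ u with (u, v) ∈ E, ∑ s : sources E, c u v s * x s +
          if h : v ∈ sources E then x ⟨v, h⟩ else 0 := by
    intro x v hvd
    rw [sum_congr rfl (fun w _ => hrec x v w), sum_add_distrib, sum_comm]
    have hdv := hdiv v hvd
    simp only [dv] at hdv
    by_cases hv : v ∈ sources E
    · have : univ.filter (fun u => (u, v) ∈ E) = ∅ := by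
        ext u; simp [(hsrc v).1 hv u]
      rw [this]
      simp only [sum_empty, zero_add, dif_pos hv, β]
      rw [← sum_mul, hcout]
      rw [if_pos hv] at hdv
      have h0 : ∑ u, a (u, v) = 0 := sum_eq_zero (fun u _ => ha0 _ ((hsrc v).1 hv u))
      rw [h0, sub_zero] at hdv
      rw [hdv, one_mul]
    · simp only [dif_neg hv, sum_const_zero, add_zero]
      apply sum_congr rfl
      intro u _
      rw [← sum_mul]
      have h1 : ∑ w with (v, w) ∈ E, α u v w = 1 := by
        simp only [α]
        rw [sum_add_distrib, ← sum_div, ← sum_div, ← mul_sum, sum_sub_distrib, hcout]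
        rw [if_neg hv, sub_eq_zero, ← hcin] at hdv
        rw [hdv]
        simp only [sum_const, nsmul_eq_mul]
        have := hod v hvd
        change od v * 1 / od v + a (u, v) * (cin v - od v * (cin v / od v)) / nin v = 1
        rw [mul_div_cancel₀ _ this]
        field_simp
        ring
      rw [h1, one_mul]
  refine ⟨α, β, fun e s => c e.1 e.2 s, fun x v w _ => hrec x v w, fun x => ?_, fun e he => ?_⟩
  · simp only [one_mul]
    let Y : V → V → ℝ := fun v w => ∑ s : sources E, c v w s * x s
    have hall : ∑ v, ∑ w with (v, w) ∈ E, Y v w = ∑ v, ∑ u with (u, v) ∈ E, Y u v := by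
      simp only [sum_filter]
      rw [sum_comm]
    rw [← sum_erase_add _ _ (mem_univ d), ← sum_erase_add _ _ (mem_univ d)] at hall
    have h0 : ∑ w with (d, w) ∈ E, Y d w = 0 := by
      apply sum_eq_zero
      intro w hw
      exact absurd (mem_filter.1 hw).2 (hdout w)
    rw [h0, add_zero, sum_congr rfl (fun v hv => hcons x v (ne_of_mem_erase hv)),
      sum_add_distrib] at hall
    have h1 : ∑ v ∈ univ.erase d, (if h : v ∈ sources E then x ⟨v, h⟩ else 0) = ∑ s, x s := by
      rw [sum_erase _ (by simp [hd])]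
      rw [← sum_attach_eq_sum_dite, univ_eq_attach]
    rw [h1] at hall
    have := add_left_cancel hall
    exact this.symm
  · rw [hsum e.1 e.2 (hW he)]
    by_contra h
    exact (haE e h).2 he

/-- Zero-sum linear combinations of independent standard Gaussians are independent of the sum. -/
lemma indep_of_sum_zero {ι κ : Type} [Fintype ι] [Fintype κ] (c : κ → ι → ℝ)
    (hc : ∀ k, ∑ s, c k s = 0) {Ω : Type*} [MeasurableSpace Ω] (P : Measure Ω) (X : ι → Ω → ℝ)
    (hX : ∀ s, HasLaw (X s) (gaussianReal 0 1) P) (hind : iIndepFun X P) :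
    IndepFun (fun ω k => ∑ s, c k s * X s ω) (fun ω => ∑ s, X s ω) P := by
  classical
  have hP : IsProbabilityMeasure P := hind.isProbabilityMeasure
  have hG : ∀ s, HasGaussianLaw (X s) P := fun s => (hX s).hasGaussianLaw
  have hjoint : HasGaussianLaw (fun ω s => X s ω) P := hind.hasGaussianLaw hG
  let L1 : (ι → ℝ) →L[ℝ] (κ → ℝ) :=
    ContinuousLinearMap.pi (fun k => ∑ s, c k s • ContinuousLinearMap.proj s)
  let L2 : (ι → ℝ) →L[ℝ] (Unit → ℝ) :=
    ContinuousLinearMap.pi (fun _ => ∑ s, ContinuousLinearMap.proj s)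
  have h1 := hjoint.map_fun (L1.prod L2)
  have h2 : HasGaussianLaw (fun ω => (fun k => ∑ s, c k s * X s ω,
      fun _ : Unit => ∑ s, X s ω)) P := by
    have e : (fun ω => (fun k => ∑ s, c k s * X s ω, fun _ : Unit => ∑ s, X s ω)) =
        fun ω => (L1.prod L2) (fun s => X s ω) := by
      funext ω
      ext k <;> simp [L1, L2]
    rw [e]
    exact h1
  have hL2 : ∀ s, MemLp (X s) 2 P := fun s => (hG s).memLp_two
  have h3 := HasGaussianLaw.indepFun_of_covariance_eval
    (X := fun k ω => ∑ s, c k s * X s ω) (Y := fun (_ : Unit) ω => ∑ s, X s ω) h2 (by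
      intro k _
      rw [covariance_fun_sum_fun_sum (fun s => (hL2 s).const_mul _) hL2]
      have : ∀ i, ∑ j, cov[fun ω => c k i * X i ω, X j; P] = c k i := by
        intro i
        rw [sum_eq_single i]
        · rw [covariance_const_mul_left, covariance_self (hX i).aemeasurable, (hX i).variance_eq]
          simp
        · intro j _ hji
          rw [covariance_const_mul_left,
            (hind.indepFun hji.symm).covariance_eq_zero (hL2 i) (hL2 j), mul_zero]
        · simp
      rw [sum_congr rfl (fun i _ => this i), hc])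
  exact h3.comp measurable_id (measurable_pi_apply ())

end Pool.Agent.Work.MP_121ed1_lc
end
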