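import Mathlib

/-!
Definitions for secret sum computation in networks.
A directed graph on a finite vertex type `V` is given by its finite edge set `E`.
-/

namespace Pool.Agent.Work.MP_121ed1_lc

variable {V : Type} [Fintype V] [DecidableEq V]

/-- The sources: the vertices of in-degree zero. -/
def sources (E : Finset (V × V)) : Finset V :=
  Finset.univ.filter (fun s => ∀ u, (u, s) ∉ E)

/-- `(V, E)` is a network with destination `d`: acyclic, weakly connected, and `d` is the one
vertex of out-degree zero. -/
structure IsNetwork (E : Finset (V × V)) (d : V) : Prop where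
  acyclic : ∀ v, ¬ Relation.TransGen (fun a b => (a, b) ∈ E) v v
  weaklyConnected : ∀ u v, Relation.EqvGen (fun a b => (a, b) ∈ E) u v
  uniqueSink : ∀ v, (∀ w, (v, w) ∉ E) ↔ v = d

/-- The secrecy closure of the set `W` of wiretapped edges: `W` together with the edges whose
tail is reached from no source by a directed path (possibly of length zero) avoiding `W`. -/
def scl (E W : Finset (V × V)) : Set (V × V) :=
  {e | e ∈ W ∨ (e ∈ E ∧
    ¬ ∃ s ∈ sources E, Relation.ReflTransGen (fun a b => (a, b) ∈ E ∧ (a, b) ∉ W) s e.1)}

/-- Condition (C): once the secrecy closure is removed and orientations are forgotten, every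
source lies in the connected component of `d`. -/
def CondC (E W : Finset (V × V)) (d : V) : Prop :=
  ∀ s ∈ sources E, Relation.EqvGen (fun a b => (a, b) ∈ E ∧ (a, b) ∉ scl E W) s d

end Pool.Agent.Work.MP_121ed1_lc
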